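import Pool.Agent.N662.FP.Cl4

set_option autoImplicit false
open MeasureTheory ProbabilityTheory Filter
open scoped Pointwise

/-!
Both halves of Q1 of MP_de94ef_pr (planar first-passage percolation with Exp(1) weights): weak
polynomial bounds imply the super-polynomial bounds of Q1.

Proofs of the pieces: helpers 521, 887, 36, 327, 263, 749, 31, 390, 776, 881, 250, 402, 123, 413,
901, 403, 293, 698, 285, 585, 346, 398, 68, 195, 335, 878, 340, 657, 896, 476, 189, 928, 946, 555,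
118, 249, 692, 281, 478 (folders N521, ...); idea, statements and assembly: helper662.
-/

namespace Pool.Agent.Results.MP_de94ef_pr.BothHalves

/-- the fattened cluster at time `t`, for the passage times `T` from the origin -/
def Cluster (T : ℤ × ℤ → ℝ) (t : ℝ) : Set (ℝ × ℝ) :=
  {x : ℝ × ℝ | ∃ v : ℤ × ℤ, T v ≤ t ∧ |x.1 - (v.1 : ℝ)| ≤ 1 / 2 ∧ |x.2 - (v.2 : ℝ)| ≤ 1 / 2}

/-- inner event: a part of `(1 - t ^ (-κ)) t` times the limit shape is missed by the fattened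
cluster at time `t` -/
def Missed {Ω : Type} (T : Ω → ℤ × ℤ → ℝ) (μ : ℝ × ℝ → ℝ) (κ t : ℝ) : Set Ω :=
  {ω | ¬ (((1 - t ^ (-κ)) * t) • {x : ℝ × ℝ | μ x ≤ 1} ⊆ Cluster (T ω) t)}

/-- outer event: the fattened cluster at time `t` is not contained in `(1 + t ^ (-κ)) t` times the
limit shape -/
def Exceeded {Ω : Type} (T : Ω → ℤ × ℤ → ℝ) (μ : ℝ × ℝ → ℝ) (κ t : ℝ) : Set Ω :=
  {ω | ¬ (Cluster (T ω) t ⊆ ((1 + t ^ (-κ)) * t) • {x : ℝ × ℝ | μ x ≤ 1})}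

/-- the lattice point `v` as a point of the plane -/
def pt (v : ℤ × ℤ) : ℝ × ℝ := ((v.1 : ℝ), (v.2 : ℝ))

/-- lower tail with the power `q`: `P(T(v) ≤ μ(v) - t ^ (1 - κ)) ≤ C t ^ (-q)` for all `t ≥ 1` and
all `v` with `μ(v) ≤ t` -/
def Lower {Ω : Type} [MeasureSpace Ω] (T : Ω → ℤ × ℤ → ℝ) (μ : ℝ × ℝ → ℝ) (κ q : ℝ) : Prop :=
  ∃ C : ℝ, ∀ t : ℝ, 1 ≤ t → ∀ v : ℤ × ℤ, μ (pt v) ≤ t →
    (volume : Measure Ω).real {ω | T ω v ≤ μ (pt v) - t ^ (1 - κ)} ≤ C * t ^ (-q)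

theorem result :
  ∀ (Ω : Type) [MeasureSpace Ω] [IsProbabilityMeasure (volume : Measure Ω)]
    (X : Sym2 (ℤ × ℤ) → Ω → ℝ) (T : Ω → ℤ × ℤ → ℝ) (μ : ℝ × ℝ → ℝ),
    (∀ e, Measurable (X e)) →
    iIndepFun X (volume : Measure Ω) →
    (∀ e, Measure.map (X e) (volume : Measure Ω) = expMeasure 1) →
    (∀ ω v, T ω v = sInf {s : ℝ | ∃ n : ℕ, ∃ p : ℕ → ℤ × ℤ, p 0 = 0 ∧ p n = v ∧
        (∀ i < n, |(p (i + 1)).1 - (p i).1| + |(p (i + 1)).2 - (p i).2| = 1) ∧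
        s = ∑ i ∈ Finset.range n, X s(p i, p (i + 1)) ω}) →
    (∀ (x : ℝ × ℝ) (c : ℝ), 0 ≤ c → μ (c • x) = c * μ x) →
    Continuous μ →
    (∀ z : ℤ × ℤ, ∀ᵐ ω ∂(volume : Measure Ω),
        Tendsto (fun n : ℕ => T ω ((n : ℤ) • z) / (n : ℝ)) atTop
          (nhds (μ ((z.1 : ℝ), (z.2 : ℝ))))) →
    -- (1) lower tail and outer half: one power above `6` gives all powers
    (∀ K q0 : ℝ, K < 1 → 6 < q0 → (∀ κ : ℝ, 0 < κ → κ < K → Lower T μ κ q0) →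
      ∀ κ : ℝ, 0 < κ → κ < K → ∀ q : ℝ, 0 < q → Lower T μ κ q ∧
        Asymptotics.IsBigO atTop
          (fun t : ℝ => (volume : Measure Ω).real (Exceeded T μ κ t)) (fun t : ℝ => t ^ (-q))) ∧
    -- (2) both halves, all exponents below `K`
    (∀ K : ℝ, K < 1 →
      ((∀ κ : ℝ, 0 < κ → κ < K → ∀ q : ℝ, 0 < q →
          Asymptotics.IsBigO atTop
            (fun t : ℝ => (volume : Measure Ω).real (Exceeded T μ κ t))
            (fun t : ℝ => t ^ (-q)) ∧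
          Asymptotics.IsBigO atTop
            (fun t : ℝ => (volume : Measure Ω).real (Missed T μ κ t))
            (fun t : ℝ => t ^ (-q))) ↔
        ((∃ q0 : ℝ, 6 < q0 ∧ ∀ κ : ℝ, 0 < κ → κ < K → Asymptotics.IsBigO atTop
            (fun t : ℝ => (volume : Measure Ω).real (Exceeded T μ κ t))
            (fun t : ℝ => t ^ (-q0))) ∧
          ∀ κ : ℝ, 0 < κ → κ < K → ∃ e : ℝ, e < Real.exp (-1) ∧
            ∀ᶠ t : ℝ in atTop, (volume : Measure Ω).real (Missed T μ κ t) ≤ e))) ∧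
    -- (3) the case `K = 2 / 3` in the notation of Q1
    ((∀ ζ : ℝ, 0 < ζ → ζ < 2 / 3 → ∀ q : ℝ, 0 < q →
        Asymptotics.IsBigO atTop
          (fun t : ℝ => ((volume : Measure Ω) {ω | ¬ (Cluster (T ω) t ⊆
            ((1 + t ^ (-(2 / 3 : ℝ) + ζ)) * t) • {x : ℝ × ℝ | μ x ≤ 1})}).toReal)
          (fun t : ℝ => t ^ (-q)) ∧
        Asymptotics.IsBigO atTop
          (fun t : ℝ => ((volume : Measure Ω) {ω | ¬ (((1 - t ^ (-(2 / 3 : ℝ) + ζ)) * t) •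
            {x : ℝ × ℝ | μ x ≤ 1} ⊆ Cluster (T ω) t)}).toReal)
          (fun t : ℝ => t ^ (-q))) ↔
      ((∃ q0 : ℝ, 6 < q0 ∧ ∀ ζ : ℝ, 0 < ζ → ζ < 2 / 3 → Asymptotics.IsBigO atTop
          (fun t : ℝ => ((volume : Measure Ω) {ω | ¬ (Cluster (T ω) t ⊆
            ((1 + t ^ (-(2 / 3 : ℝ) + ζ)) * t) • {x : ℝ × ℝ | μ x ≤ 1})}).toReal)
          (fun t : ℝ => t ^ (-q0))) ∧
        ∀ ζ : ℝ, 0 < ζ → ζ < 2 / 3 → ∃ e : ℝ, e < Real.exp (-1) ∧ ∀ᶠ t : ℝ in atTop,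
          ((volume : Measure Ω) {ω | ¬ (((1 - t ^ (-(2 / 3 : ℝ) + ζ)) * t) •
            {x : ℝ × ℝ | μ x ≤ 1} ⊆ Cluster (T ω) t)}).toReal ≤ e)) := by
  intro Ω _ _ X T μ h1 h2 h3 hT hhom hcont hlim
  obtain ⟨hX, hTD, p, hp, hG⟩ :=
    Pool.Agent.N662.FP.setup Ω X T μ h1 h2 h3 hT hhom hcont hlim
  subst hp
  subst hTD
  have hB : ∀ K : ℝ, K < 1 → _ := fun K hK =>
    Pool.Agent.N662.FP.both Pool.Agent.N662.FP.cNORM Pool.Agent.N662.FP.cDD2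
      Pool.Agent.N662.FP.cEE Pool.Agent.N662.FP.cREC Pool.Agent.N662.FP.cOUT3
      Pool.Agent.N662.FP.cOUT2 hX hG K hK
  refine ⟨?_, hB, ?_⟩
  · intro K q0 hK hq0 h κ h0 h1 q hq
    exact ⟨Pool.Agent.N662.FP.all_q Pool.Agent.N662.FP.cREC hX hG.norm K hK q0 hq0 h κ q h0 h1,
      Pool.Agent.N662.FP.out_q Pool.Agent.N662.FP.cREC Pool.Agent.N662.FP.cOUT3 hX hG.norm K hK
        q0 hq0 h κ q h0 h1 hq⟩
  · have hz : ∀ ζ : ℝ, -(2 / 3 : ℝ) + ζ = -(2 / 3 - ζ) := fun ζ => by ring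
    have h23 := hB (2 / 3) (by norm_num)
    constructor
    · intro h
      obtain ⟨⟨q0, hq0, h5⟩, h6⟩ := h23.1 (by
        intro κ h0 h1 q hq
        have h4 := h (2 / 3 - κ) (by linarith) (by linarith) q hq
        have e1 : -(2 / 3 : ℝ) + (2 / 3 - κ) = -κ := by ring
        rw [e1] at h4
        exact h4)
      refine ⟨⟨q0, hq0, fun ζ h0 h1 => ?_⟩, fun ζ h0 h1 => ?_⟩
      · have h7 := h5 (2 / 3 - ζ) (by linarith) (by linarith)
        rw [hz]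
        exact h7
      · have h7 := h6 (2 / 3 - ζ) (by linarith) (by linarith)
        rw [hz]
        exact h7
    · rintro ⟨⟨q0, hq0, h5⟩, h6⟩ ζ h0 h1 q hq
      have h8 := h23.2 ⟨⟨q0, hq0, fun κ h0 h1 => by
          have h7 := h5 (2 / 3 - κ) (by linarith) (by linarith)
          have e1 : -(2 / 3 : ℝ) + (2 / 3 - κ) = -κ := by ring
          rw [e1] at h7
          exact h7⟩, fun κ h0 h1 => by
          have h7 := h6 (2 / 3 - κ) (by linarith) (by linarith)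
          have e1 : -(2 / 3 : ℝ) + (2 / 3 - κ) = -κ := by ring
          rw [e1] at h7
          exact h7⟩ (2 / 3 - ζ) (by linarith) (by linarith) q hq
      rw [hz]
      exact h8

end Pool.Agent.Results.MP_de94ef_pr.BothHalves
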