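import Pool.Agent.N662.FP.Cl

set_option autoImplicit false
open MeasureTheory ProbabilityTheory Filter
open scoped Pointwise

/-!
The inner half of Q1 of MP_de94ef_pr (planar first-passage percolation with Exp(1) weights).

Proofs of the pieces: helpers 521, 887, 36, 327, 263, 749, 31, 390, 776, 881, 250, 402, 123, 413,
901, 403, 293, 698, 285, 585, 346, 398, 68, 195, 335, 878, 340, 657, 896, 476 (folders N521, ...);
idea, statements and assembly: helper662.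
-/

namespace Pool.Agent.Results.MP_de94ef_pr.InnerHalf

/-- the fattened cluster at time `t`, for the passage times `T` from the origin -/
def Cluster (T : ℤ × ℤ → ℝ) (t : ℝ) : Set (ℝ × ℝ) :=
  {x : ℝ × ℝ | ∃ v : ℤ × ℤ, T v ≤ t ∧ |x.1 - (v.1 : ℝ)| ≤ 1 / 2 ∧ |x.2 - (v.2 : ℝ)| ≤ 1 / 2}

/-- the event that a part of `(1 - t ^ (-κ)) t` times the limit shape is missed by the fattened
cluster at time `t` -/
def Missed {Ω : Type} (T : Ω → ℤ × ℤ → ℝ) (μ : ℝ × ℝ → ℝ) (κ t : ℝ) : Set Ω :=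
  {ω | ¬ (((1 - t ^ (-κ)) * t) • {x : ℝ × ℝ | μ x ≤ 1} ⊆ Cluster (T ω) t)}

/-- the lattice point `v` as a point of the plane -/
def pt (v : ℤ × ℤ) : ℝ × ℝ := ((v.1 : ℝ), (v.2 : ℝ))

theorem result :
  ∀ (Ω : Type) [MeasureSpace Ω] [IsProbabilityMeasure (volume : Measure Ω)]
    (X : Sym2 (ℤ × ℤ) → Ω → ℝ) (T : Ω → ℤ × ℤ → ℝ) (μ : ℝ × ℝ → ℝ),
    (∀ e, Measurable (X e)) →
    iIndepFun X (volume : Measure Ω) →
    (∀ e, Measure.map (X e) (volume : Measure Ω) = expMeasure 1) →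
    (∀ ω v, T ω v = sInf {s : ℝ | ∃ n : ℕ, ∃ p : ℕ → ℤ × ℤ, p 0 = 0 ∧ p n = v ∧
        (∀ i < n, |(p (i + 1)).1 - (p i).1| + |(p (i + 1)).2 - (p i).2| = 1) ∧
        s = ∑ i ∈ Finset.range n, X s(p i, p (i + 1)) ω}) →
    (∀ (x : ℝ × ℝ) (c : ℝ), 0 ≤ c → μ (c • x) = c * μ x) →
    Continuous μ →
    (∀ z : ℤ × ℤ, ∀ᵐ ω ∂(volume : Measure Ω),
        Tendsto (fun n : ℕ => T ω ((n : ℤ) • z) / (n : ℝ)) atTop
          (nhds (μ ((z.1 : ℝ), (z.2 : ℝ))))) →
    -- (1) the upper tail of every passage time is log-concave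
    (∀ (v : ℤ × ℤ) (s t θ : ℝ), 0 < θ → θ < 1 →
      (volume : Measure Ω).real {ω | s ≤ T ω v} ^ θ *
        (volume : Measure Ω).real {ω | t ≤ T ω v} ^ (1 - θ) ≤
      (volume : Measure Ω).real {ω | θ * s + (1 - θ) * t ≤ T ω v}) ∧
    -- (2) one point
    (∀ (v : ℤ × ℤ) (r d : ℝ), 0 < r → 0 < d →
      (volume : Measure Ω).real {ω | μ (pt v) + r ≤ T ω v} ≤ Real.exp (-(1 + d)) →
      (∀ u : ℝ, 0 ≤ u → (volume : Measure Ω).real {ω | μ (pt v) + r + u ≤ T ω v} ≤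
        Real.exp (-(1 + d + d * u / r))) ∧
      ∫ ω, |T ω v - μ (pt v)| ∂(volume : Measure Ω) ≤ 2 * (1 + 1 / d) * r) ∧
    -- (2') without hypothesis: the upper tail is exponential at the scale of the mean of the
    -- positive part of `T(v) - μ(v)`
    (∀ (v : ℤ × ℤ) (r u : ℝ), 0 < r → 0 ≤ u →
      Real.exp 2 * ∫ ω, max (T ω v - μ (pt v)) 0 ∂(volume : Measure Ω) ≤ r →
      (volume : Measure Ω).real {ω | μ (pt v) + r + u ≤ T ω v} ≤ Real.exp (-(2 + u / r))) ∧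
    -- (3) one exponent
    (∀ κ κ' e : ℝ, 0 < κ' → κ' < κ → κ < 1 → e < Real.exp (-1) →
      (∀ᶠ t : ℝ in atTop, (volume : Measure Ω).real (Missed T μ κ t) ≤ e) →
      ∃ c : ℝ, 0 < c ∧ ∀ᶠ t : ℝ in atTop,
        (volume : Measure Ω).real (Missed T μ κ' t) ≤ Real.exp (-(t ^ c))) ∧
    -- (4) all exponents below `K`; for `K = 2 / 3` the second item is the inner half of Q1
    (∀ K : ℝ, K < 1 → List.TFAE [
      ∀ κ : ℝ, 0 < κ → κ < K → ∃ e : ℝ, e < Real.exp (-1) ∧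
        ∀ᶠ t : ℝ in atTop, (volume : Measure Ω).real (Missed T μ κ t) ≤ e,
      ∀ κ : ℝ, 0 < κ → κ < K → ∀ q : ℝ, 0 < q → Asymptotics.IsBigO atTop
        (fun t : ℝ => (volume : Measure Ω).real (Missed T μ κ t)) (fun t : ℝ => t ^ (-q)),
      ∀ κ : ℝ, 0 < κ → κ < K → ∃ c : ℝ, 0 < c ∧
        ∀ᶠ t : ℝ in atTop, (volume : Measure Ω).real (Missed T μ κ t) ≤ Real.exp (-(t ^ c)),
      ∀ κ : ℝ, 0 < κ → κ < K → ∃ e : ℝ, e < Real.exp (-1) ∧ ∃ A : ℝ, 0 < A ∧ ∀ v : ℤ × ℤ,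
        (volume : Measure Ω).real
          {ω | μ (pt v) + A * (1 + μ (pt v)) ^ (1 - κ) ≤ T ω v} ≤ e,
      ∀ κ : ℝ, 0 < κ → κ < K → ∃ A : ℝ, ∀ v : ℤ × ℤ,
        ∫ ω, |T ω v - μ (pt v)| ∂(volume : Measure Ω) ≤ A * (1 + μ (pt v)) ^ (1 - κ),
      ∀ κ : ℝ, 0 < κ → κ < K → ∀ ε : ℝ, 0 < ε → Tendsto (fun v : ℤ × ℤ =>
        (volume : Measure Ω).real {ω | ε * (1 + μ (pt v)) ^ (1 - κ) ≤ |T ω v - μ (pt v)|})
        cofinite (nhds 0)]) := by
  intro Ω _ _ X T μ h1 h2 h3 hT hhom hcont hlim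
  obtain ⟨hX, hTD, p, hp, hG⟩ :=
    Pool.Agent.N662.FP.setup Ω X T μ h1 h2 h3 hT hhom hcont hlim
  subst hp
  refine ⟨?_, ?_, ?_, ?_, ?_⟩
  · intro v s t θ h0 h1
    rw [hTD]
    exact Pool.Agent.N662.FP.tailLC Pool.Agent.N662.FP.cLC Pool.Agent.N662.FP.cFULL hX v s t θ
      h0 h1
  · exact fun v r d hr hd h8 => hG.one v r d hr hd h8
  · intro v r u hr hu hM
    have hi : Integrable (fun ω => max (T ω v - p (pt v)) 0) (volume : Measure Ω) :=
      ((hG.int v).sub (integrable_const _)).pos_part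
    have h5 := mul_meas_ge_le_integral_of_nonneg (μ := (volume : Measure Ω))
      (f := fun ω => max (T ω v - p (pt v)) 0)
      (Eventually.of_forall fun ω => le_max_right _ _) hi r
    have h6 : (volume : Measure Ω).real {ω | p (pt v) + r ≤ T ω v} ≤
        (volume : Measure Ω).real {ω | r ≤ max (T ω v - p (pt v)) 0} := by
      refine measureReal_mono (fun ω hω => ?_) (measure_ne_top _ _)
      have h7 : p (pt v) + r ≤ T ω v := hω
      show r ≤ max (T ω v - p (pt v)) 0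
      exact le_max_of_le_left (by linarith)
    have h8 : (volume : Measure Ω).real {ω | p (pt v) + r ≤ T ω v} ≤ Real.exp (-(1 + 1)) := by
      have h9 : r * (volume : Measure Ω).real {ω | p (pt v) + r ≤ T ω v} ≤
          r * Real.exp (-(1 + 1)) := by
        calc r * (volume : Measure Ω).real {ω | p (pt v) + r ≤ T ω v}
            ≤ r * (volume : Measure Ω).real {ω | r ≤ max (T ω v - p (pt v)) 0} := by gcongr
          _ ≤ ∫ ω, max (T ω v - p (pt v)) 0 := h5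
          _ = (Real.exp 2 * ∫ ω, max (T ω v - p (pt v)) 0) * Real.exp (-(1 + 1)) := by
              have e2 : Real.exp 2 * Real.exp (-(1 + 1)) = 1 := by
                rw [← Real.exp_add]; norm_num
              calc ∫ ω, max (T ω v - p (pt v)) 0
                  = (Real.exp 2 * Real.exp (-(1 + 1))) * ∫ ω, max (T ω v - p (pt v)) 0 := by
                    rw [e2, one_mul]
                _ = _ := by ring
          _ ≤ r * Real.exp (-(1 + 1)) := by gcongr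
      exact le_of_mul_le_mul_left h9 hr
    refine ((hG.one v r 1 hr one_pos h8).1 u hu).trans (le_of_eq ?_)
    congr 1
    ring
  · exact fun κ κ' e h0' h1' h1 he h =>
      Pool.Agent.N662.FP.oneExp Pool.Agent.N662.FP.cDD2 Pool.Agent.N662.FP.cEE hG κ κ' e h0' h1'
        h1 he h
  · exact fun K hK => Pool.Agent.N662.FP.tfae Pool.Agent.N662.FP.cNORM Pool.Agent.N662.FP.cDD2
      Pool.Agent.N662.FP.cEE hG K hK

end Pool.Agent.Results.MP_de94ef_pr.InnerHalf
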